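import Pool.Agent.Helper98.GY.Stmts
import Pool.Agent.Helper11.BZ.PTB2

/-!
PTB: the structured part for cocycles with a null set of discontinuities over a compact metric
space (MP_7a8f48_an, sheet GY). Adapted from the module PTB3 (helper1) and PTB2 (helper11); the
basic facts on the class `RI ν` are ports of those of `Helper40/DZ/Defs.lean`.
-/

open Finset Filter MeasureTheory Topology
open scoped ComplexConjugate InnerProductSpace

namespace Pool.Agent.Helper94.GY

open Pool.Agent.Helper98.GY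
open Pool.Agent.Helper16.AZ (T E Op mm Eig PP unitary_norm ST_VDH ST_MSR ST_MRF ST_FPV)
open Pool.Agent.Helper16.BZ (co Wk EE ff EQ Act ff_norm ptb2_point)
open Pool.Agent.Helper16.MD (MS PB Am RW Rich)
open Pool.Agent.Helper53.AZ (ptb_count ptb_mu)

section basic

variable {Y : Type} [MetricSpace Y] [CompactSpace Y] [MeasurableSpace Y] [BorelSpace Y]
  {ν : Measure Y} [IsProbabilityMeasure ν]

theorem aesm_of_ae {V : Type} [TopologicalSpace V] [TopologicalSpace.PseudoMetrizableSpace V]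
    {F : Y → V} (h : ∀ᵐ x ∂ν, ContinuousAt F x) : AEStronglyMeasurable F ν := by
  let := TopologicalSpace.pseudoMetrizableSpacePseudoMetric V
  obtain ⟨A, hA⟩ : ∃ A : Set Y, A = {x | ContinuousAt F x} := ⟨_, rfl⟩
  have h1 : MeasurableSet A := by
    rw [hA]
    exact (IsGδ.setOfPred_continuousAt F).measurableSet
  have h2 : ContinuousOn F A := by
    intro x hx
    rw [hA] at hx
    exact ContinuousAt.continuousWithinAt hx
  have h3 := h2.aestronglyMeasurable (μ := ν) h1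
  have h4 : ∀ᵐ x ∂ν, x ∈ A := by
    rw [hA]
    exact h
  rwa [Measure.restrict_eq_self_of_ae_mem h4] at h3

variable {V : Type} [NormedAddCommGroup V] {F G : Y → V}

theorem ri_aesm (h : RI ν F) : AEStronglyMeasurable F ν := aesm_of_ae h.1

theorem ri_of_continuous (h : Continuous F) : RI ν F := by
  refine ⟨Eventually.of_forall fun x => h.continuousAt, ?_⟩
  obtain ⟨C, hC⟩ := (isCompact_range h).isBounded.exists_norm_le
  exact ⟨C, fun x => hC _ ⟨x, rfl⟩⟩

theorem ri_integrable (h : RI ν F) : Integrable F ν := by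
  obtain ⟨C, hC⟩ := h.2
  exact Integrable.of_bound (ri_aesm h) C (Eventually.of_forall hC)

theorem ri_norm (h : RI ν F) : RI ν (fun x => ‖F x‖) := by
  obtain ⟨C, hC⟩ := h.2
  exact ⟨h.1.mono fun x hx => hx.norm, C, fun x => by rw [norm_norm]; exact hC x⟩

theorem ri_add (h : RI ν F) (h' : RI ν G) : RI ν (fun x => F x + G x) := by
  obtain ⟨C, hC⟩ := h.2
  obtain ⟨C', hC'⟩ := h'.2
  refine ⟨?_, C + C', fun x => (norm_add_le _ _).trans (add_le_add (hC x) (hC' x))⟩
  filter_upwards [h.1, h'.1] with x h1 h2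
  exact h1.add h2

theorem ri_neg (h : RI ν F) : RI ν (fun x => -F x) := by
  obtain ⟨C, hC⟩ := h.2
  exact ⟨h.1.mono fun x hx => hx.neg, C, fun x => by rw [norm_neg]; exact hC x⟩

theorem ri_sub (h : RI ν F) (h' : RI ν G) : RI ν (fun x => F x - G x) := by
  simpa only [sub_eq_add_neg] using ri_add h (ri_neg h')

theorem ri_sum {ι : Type} (s : Finset ι) {F : ι → Y → V} (h : ∀ k ∈ s, RI ν (F k)) :
    RI ν (fun x => ∑ k ∈ s, F k x) := by
  classical
  induction s using Finset.induction_on with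
  | empty =>
    simp only [Finset.sum_empty]
    exact ri_of_continuous continuous_const
  | insert a s ha ih =>
    simp only [Finset.sum_insert ha]
    exact ri_add (h a (Finset.mem_insert_self _ _)) (ih fun k hk => h k (Finset.mem_insert_of_mem hk))

theorem ri_const_smul {V : Type} [NormedAddCommGroup V] [NormedSpace ℂ V] {F : Y → V}
    (a : ℂ) (h : RI ν F) : RI ν (fun x => a • F x) := by
  obtain ⟨C, hC⟩ := h.2
  refine ⟨h.1.mono fun x hx => continuousAt_const.smul hx, ‖a‖ * C, fun x => ?_⟩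
  rw [norm_smul]
  exact mul_le_mul_of_nonneg_left (hC x) (norm_nonneg _)

/-- functions with a null set of discontinuities are stable under `Continuous` maps -/
theorem ri_cont_comp {V W : Type} [NormedAddCommGroup V] [NormedAddCommGroup W]
    [ProperSpace V] {F : Y → V} (h : RI ν F) {g : V → W} (hg : Continuous g) :
    RI ν (fun x => g (F x)) := by
  obtain ⟨C, hC⟩ := h.2
  refine ⟨h.1.mono fun x hx => hg.continuousAt.comp hx, ?_⟩
  obtain ⟨C', hC'⟩ := ((isCompact_closedBall (0 : V) C).image hg).isBounded.exists_norm_le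
  exact ⟨C', fun x => hC' _ ⟨F x, by simpa using hC x, rfl⟩⟩

theorem ri_comp {S : Y → Y} (hS : Continuous S) (hm : MeasurePreserving S ν ν)
    (h : RI ν F) : RI ν (fun x => F (S x)) := by
  obtain ⟨C, hC⟩ := h.2
  refine ⟨?_, C, fun x => hC _⟩
  filter_upwards [hm.quasiMeasurePreserving.ae h.1] with x hx
  exact ContinuousAt.comp (f := S) hx hS.continuousAt

variable {d : ℕ} {φ : Y → Op d} {S : Y → Y}

theorem iter_cont (hS : Continuous S) (n : ℕ) : Continuous S^[n] := hS.iterate n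

theorem iter_mp (hm : MeasurePreserving S ν ν) (n : ℕ) :
    MeasurePreserving S^[n] ν ν := hm.iterate n

theorem co_ae (hS : Continuous S) (hm : MeasurePreserving S ν ν) (h : UR ν φ) (n : ℕ) :
    ∀ᵐ x ∂ν, ContinuousAt (co S φ n) x := by
  induction n with
  | zero => exact Eventually.of_forall fun x => continuousAt_const
  | succ n ih =>
    filter_upwards [ih, (iter_mp hm n).quasiMeasurePreserving.ae h.1] with x h1 h2
    have h3 : ContinuousAt (fun x => φ (S^[n] x)) x :=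
      ContinuousAt.comp (f := S^[n]) h2 (iter_cont hS n).continuousAt
    exact h3.mul h1

theorem Wk_RI (hS : Continuous S) (hm : MeasurePreserving S ν ν) (h : UR ν φ)
    {b : Y → E d} (hb : RI ν b) (k : ℕ) : RI ν (Wk S φ k b) := by
  obtain ⟨C, hC⟩ := hb.2
  refine ⟨?_, C, fun x => ?_⟩
  · filter_upwards [co_ae hS hm h k, (ri_comp (iter_cont hS k) (iter_mp hm k) hb).1] with x h1 h2
    have h3 : ContinuousAt (fun x => star (co S φ k x)) x :=
      ((ContinuousLinearMap.adjoint : Op d ≃ₗᵢ⋆[ℂ] Op d).continuous.continuousAt).comp h1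
    exact h3.clm_apply h2
  · rw [Pool.Agent.Helper16.BZ.Wk_norm S φ b h.2]
    exact hC _

theorem ptbY_mean {d : ℕ} (R : Y → E d) (hR : RI ν R) (ε ε' : ℝ)
    (hε : 0 ≤ ε) (hε' : ε < ε') (h : ∫ θ, ‖R θ‖ ^ 2 ∂ν ≤ ε ^ 2) :
    ∫ θ, ‖R θ‖ ∂ν ≤ ε' := by
  have h0 : 0 < ε' := lt_of_le_of_lt hε hε'
  have hi : Integrable (fun θ => ‖R θ‖) ν := ri_integrable (ri_norm hR)
  have hi2 : Integrable (fun θ => ‖R θ‖ ^ 2) ν :=
    ri_integrable (ri_cont_comp (ri_norm hR) (g := fun t : ℝ => t ^ 2) (by fun_prop))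
  have h1 : ∫ θ, ‖R θ‖ ∂ν ≤ ∫ θ, (‖R θ‖ ^ 2 + ε' ^ 2) / (2 * ε') ∂ν := by
    refine integral_mono hi ((hi2.add (integrable_const _)).div_const _) fun θ => ?_
    show ‖R θ‖ ≤ (‖R θ‖ ^ 2 + ε' ^ 2) / (2 * ε')
    rw [le_div_iff₀ (by positivity)]
    nlinarith [sq_nonneg (‖R θ‖ - ε')]
  refine h1.trans ?_
  rw [integral_div, integral_add hi2 (integrable_const _), integral_const,
    div_le_iff₀ (by positivity)]
  simp only [probReal_univ, smul_eq_mul, one_mul]
  nlinarith

end basic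

theorem st_PTB (heqr : ST_EQR) (hmrf : ST_MRF) : ST_PTB := by
  intro Y _ _ _ _ ν _ d S φ b u x ε K z g hS hmp heq hφ hb hu hε hzg hint δ hδ
  -- bounds
  have hbdd : ∀ G : Y → E d, Continuous G → ∃ B : ℝ, 0 ≤ B ∧ ∀ θ, ‖G θ‖ ≤ B := by
    intro G hG
    obtain ⟨B, hB⟩ := (isCompact_range hG.norm).bddAbove
    exact ⟨B, (norm_nonneg _).trans (hB ⟨x, rfl⟩), fun θ => hB ⟨θ, rfl⟩⟩
  obtain ⟨Bd, hBd0, hBd⟩ := hbdd b hb
  choose G hG0 hG using fun k => hbdd (g k) (hzg k).2
  obtain ⟨Gs, hGs⟩ : ∃ Gs : ℝ, Gs = ∑ k ∈ range K, G k := ⟨_, rfl⟩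
  have hGs0 : 0 ≤ Gs := by rw [hGs]; exact Finset.sum_nonneg fun k _ => hG0 k
  obtain ⟨L₀, hL₀⟩ := hmrf (δ / (4 * (1 + Gs))) (by positivity)
  obtain ⟨L, hL⟩ : ∃ L : ℕ, L = L₀ + 1 := ⟨_, rfl⟩
  obtain ⟨N₀, hN₀⟩ := hL₀ L (by omega)
  -- equidistribution
  obtain ⟨R, hR⟩ : ∃ R : ℕ → Y → E d, R = fun j θ =>
      Wk S φ j b θ - ∑ k ∈ range K, (z k ^ j) • g k θ := ⟨_, rfl⟩
  have hRc : ∀ j, RI ν (R j) := by
    intro j
    rw [hR]
    exact ri_sub (Wk_RI hS hmp hφ (ri_of_continuous hb) j) (ri_sum _ fun k _ =>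
      ri_const_smul _ (ri_of_continuous (hzg k).2))
  have hRi : ∀ j, ∫ θ, ‖R j θ‖ ∂ν ≤ ε + δ / 8 := by
    intro j
    refine ptbY_mean (R j) (hRc j) ε _ hε (by linarith) ?_
    rw [hR]
    exact hint j
  have hev : ∀ j, ∀ᶠ N : ℕ in atTop, ∑ m ∈ range N, ‖R j (S^[m] x)‖ ≤ (ε + δ / 4) * N := by
    intro j
    have h1 := (heqr Y ν S heq (fun θ => ((‖R j θ‖ : ℝ) : ℂ))
      (ri_cont_comp (ri_norm (hRc j)) Complex.continuous_ofReal) 1 x le_rfl).1
    rw [Metric.tendsto_nhds] at h1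
    filter_upwards [h1 (δ / 8) (by positivity), eventually_ge_atTop 1] with N hN hN1
    have hNpos : (0 : ℝ) < N := by exact_mod_cast hN1
    have hio : ∫ θ, ((‖R j θ‖ : ℝ) : ℂ) ∂ν = ((∫ θ, ‖R j θ‖ ∂ν : ℝ) : ℂ) :=
      integral_ofReal
    rw [hio] at hN
    have h2 : (∑ m ∈ range N, ((‖R j (S^[1 * m] x)‖ : ℝ) : ℂ)) / (N : ℂ) =
        (((∑ m ∈ range N, ‖R j (S^[m] x)‖) / N : ℝ) : ℂ) := by
      push_cast
      simp only [one_mul]
    rw [h2, Complex.dist_eq, ← Complex.ofReal_sub, Complex.norm_real, Real.norm_eq_abs] at hN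
    have h3 := (abs_lt.1 hN).2
    have h4 := hRi j
    have h5 : (∑ m ∈ range N, ‖R j (S^[m] x)‖) / N ≤ ε + δ / 4 := by linarith
    rwa [div_le_iff₀ hNpos] at h5
  have hevL : ∀ᶠ N : ℕ in atTop, ∀ j ∈ range L,
      ∑ m ∈ range N, ‖R j (S^[m] x)‖ ≤ (ε + δ / 4) * N := by
    rw [Filter.eventually_all_finset]
    exact fun j _ => hev j
  obtain ⟨N₂, hN₂⟩ := exists_nat_ge (2 * L * Bd / (δ / 2))
  filter_upwards [hevL, eventually_ge_atTop (max N₀ N₂)] with N hN hNmax
  have hNN0 : N₀ ≤ N := (le_max_left _ _).trans hNmax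
  have hNN2 : 2 * L * Bd ≤ δ / 2 * N := by
    have h1 : (N₂ : ℝ) ≤ N := by exact_mod_cast (le_max_right _ _).trans hNmax
    have h2 := hN₂.trans h1
    rw [div_le_iff₀ (by positivity)] at h2
    linarith
  have hLpos : (0 : ℝ) < L := by rw [hL]; positivity
  have hcount := ptb_count
    (fun n => ((ArithmeticFunction.moebius n : ℤ) : ℂ) * ff S φ b u x n) Bd (fun n => by
      rw [norm_mul]
      exact (mul_le_of_le_one_left (norm_nonneg _) (ptb_mu _)).trans
        (ff_norm S φ b hφ.2 u x n Bd hBd hu)) N L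
  have hmain : ∑ m ∈ range N, ‖∑ j ∈ range L,
      ((ArithmeticFunction.moebius (m + j) : ℤ) : ℂ) * ff S φ b u x (m + j)‖ ≤
      L * ((ε + δ / 4) * N) + δ / 4 * (L * N) := by
    have h1 : ∑ m ∈ range N, ‖∑ j ∈ range L,
        ((ArithmeticFunction.moebius (m + j) : ℤ) : ℂ) * ff S φ b u x (m + j)‖ ≤
        ∑ m ∈ range N, (∑ j ∈ range L, ‖R j (S^[m] x)‖ + ∑ k ∈ range K, G k *
          ‖∑ j ∈ range L, ((ArithmeticFunction.moebius (m + j) : ℤ) : ℂ) *
            (conj (z k)) ^ j‖) := by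
      refine Finset.sum_le_sum fun m _ => ?_
      refine (ptb2_point S φ b u x K z g hφ.2 hu m L).trans ?_
      rw [hR]
      exact add_le_add le_rfl (Finset.sum_le_sum fun k _ =>
        mul_le_mul_of_nonneg_right (hG k _) (norm_nonneg _))
    refine h1.trans ?_
    rw [Finset.sum_add_distrib, Finset.sum_comm (s := range N) (t := range L),
      Finset.sum_comm (s := range N) (t := range K)]
    refine add_le_add ?_ ?_
    · refine (Finset.sum_le_sum hN).trans (le_of_eq ?_)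
      rw [Finset.sum_const, Finset.card_range, nsmul_eq_mul]
    · have h2 : ∀ k ∈ range K, ∑ m ∈ range N, G k *
          ‖∑ j ∈ range L, ((ArithmeticFunction.moebius (m + j) : ℤ) : ℂ) *
            (conj (z k)) ^ j‖ ≤ G k * (δ / (4 * (1 + Gs)) * L * N) := by
        intro k _
        rw [← Finset.mul_sum]
        refine mul_le_mul_of_nonneg_left ?_ (hG0 k)
        refine hN₀ N hNN0 (fun j => (conj (z k)) ^ j) fun j => ?_
        rw [norm_pow, RCLike.norm_conj, (hzg k).1, one_pow]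
      refine (Finset.sum_le_sum h2).trans ?_
      rw [← Finset.sum_mul, ← hGs]
      have h3 : Gs * (δ / (4 * (1 + Gs)) * L * N) = (Gs / (1 + Gs)) * (δ / 4 * (L * N)) := by
        field_simp
      rw [h3]
      refine mul_le_of_le_one_left (by positivity) ?_
      rw [div_le_one (by positivity)]
      linarith
  have hfin : (L : ℝ) * ‖MS (ff S φ b u x) N‖ ≤ L * ((ε + δ) * N) := by
    unfold MS
    refine hcount.trans ?_
    have h1 : (L : ℝ) * (2 * L * Bd) ≤ L * (δ / 2 * N) :=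
      mul_le_mul_of_nonneg_left hNN2 hLpos.le
    linarith
  exact le_of_mul_le_mul_left hfin hLpos

end Pool.Agent.Helper94.GY
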